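import Pool.Agent.MVK.Stmts

/-!
# Squad MVK, row KB1: at most one `y` in every block
-/

set_option autoImplicit false

namespace Pool.Agent.MVK.H8

open Pool.Agent.Helper14_MV Pool.Agent.Helper2_MV Pool.Agent.MVD Pool.Agent.MVK

/-- erase the letters `3 e + 1` -/
def er1 : ℕ → List ℕ := fun c => if c % 3 = 1 then [] else [c]

theorem er1_one (c : ℕ) (h : c % 3 = 1) : er1 c = [] := if_pos h

theorem er1_not (c : ℕ) (h : c % 3 ≠ 1) : er1 c = [c] := if_neg h

theorem Bw_cons (r : ℕ) (R : List ℕ) (B : ℕ → List ℕ) :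
    Bw (r :: R) B = (B r ++ [3 * r + 2]) ++ Bw R B := by
  unfold Bw
  rw [List.flatMap_cons]

theorem Bw_append (R R' : List ℕ) (B : ℕ → List ℕ) :
    Bw (R ++ R') B = Bw R B ++ Bw R' B := by
  unfold Bw
  rw [List.flatMap_append]

theorem Bw_er (R : List ℕ) (B : ℕ → List ℕ) :
    (Bw R B).flatMap er1 = Bw R (fun r => (B r).flatMap er1) := by
  induction R with
  | nil => rfl
  | cons r R ih =>
    rw [Bw_cons, Bw_cons, List.flatMap_append, List.flatMap_append, ih, List.flatMap_singleton,
      er1_not (3 * r + 2) (by omega)]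

theorem Bw_congr (R : List ℕ) (B C : ℕ → List ℕ) (h : ∀ r ∈ R, B r = C r) :
    Bw R B = Bw R C := by
  induction R with
  | nil => rfl
  | cons r R ih =>
    rw [Bw_cons, Bw_cons, ih (fun r hr => h r (List.mem_cons_of_mem _ hr)), h r (by simp)]

theorem rep_er (n : ℕ) : (List.replicate n 0).flatMap er1 = List.replicate n 0 := by
  induction n with
  | zero => rfl
  | succ n ih =>
    rw [List.replicate_succ, List.flatMap_cons, ih, er1_not 0 (by omega)]
    rfl

theorem M_er (M : List ℕ) (h : ∀ c ∈ M, c = 0 ∨ c % 3 = 1) :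
    M.flatMap er1 = List.replicate (M.count 0) 0 := by
  induction M with
  | nil => rfl
  | cons c M ih =>
    rw [List.flatMap_cons, ih (fun d hd => h d (List.mem_cons_of_mem _ hd))]
    rcases h c (by simp) with rfl | hc
    · rw [er1_not 0 (by omega), List.count_cons_self, List.replicate_succ]
      rfl
    · rw [er1_one c hc, List.count_cons_of_ne (by intro h0; subst h0; simp at hc)]
      rfl

theorem zs_er (D : List ℕ) : (zs D).flatMap er1 = [] := by
  unfold zs
  induction D with
  | nil => rfl
  | cons e D ih =>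
    rw [List.map_cons, List.flatMap_cons, ih, er1_one (3 * e + 1) (by omega)]
    rfl

theorem sfr_rep (n : ℕ) : SFr (List.replicate n 0) := by
  intro c hc
  rw [(List.mem_replicate.mp hc).2]
  decide

theorem sfr_nil : SFr [] := by
  intro c hc
  simp at hc

theorem sfr_app (l l' : List ℕ) (h : SFr l) (h' : SFr l') : SFr (l ++ l') := by
  intro c hc
  rcases List.mem_append.mp hc with hc | hc
  · exact h c hc
  · exact h' c hc

theorem Rl_nodup (P Q : List ℕ) (m : ℕ) (h : (P ++ Q).Perm (List.range m)) :
    (Rl P Q).Nodup := by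
  have hn : (P ++ Q).Nodup := h.symm.nodup List.nodup_range
  unfold Rl
  rw [List.nodup_middle, ← List.map_append, List.nodup_cons]
  refine ⟨?_, ?_⟩
  · intro h0
    obtain ⟨e, _, he⟩ := List.mem_map.mp h0
    omega
  · exact hn.map (fun x y hxy => by simpa using hxy)

theorem Rl_mem (P Q : List ℕ) (m : ℕ) (h : (P ++ Q).Perm (List.range m)) :
    ∀ r ∈ Rl P Q, r ≠ 0 → ∃ e < m, r = e + 1 := by
  intro r hr h0
  unfold Rl at hr
  have : ∃ e ∈ P ++ Q, e + 1 = r := by
    rcases List.mem_append.mp hr with hr | hr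
    · obtain ⟨e, he, h1⟩ := List.mem_map.mp hr
      exact ⟨e, List.mem_append_left _ he, h1⟩
    · rcases List.mem_cons.mp hr with hr | hr
      · exact absurd hr h0
      · obtain ⟨e, he, h1⟩ := List.mem_map.mp hr
        exact ⟨e, List.mem_append_right _ he, h1⟩
  obtain ⟨e, he, h1⟩ := this
  exact ⟨e, List.mem_range.mp (h.mem_iff.mp he), h1.symm⟩

/-- **KB1** -/
theorem kb1 (habs : AbsStmt) (hibw : IbwStmt) : Kb1Stmt := by
  intro β hq P Q M m a b f hPQ hM hR hc hab
  -- the two erased words
  let B : ℕ → List ℕ := fun r => if r = 0 then [0, 0] else []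
  let C : ℕ → List ℕ := fun r => if r = 0 then List.replicate (M.count 0) 0 else
    List.replicate (a r) 0 ++ List.replicate (b r) 0
  have h1 : (bw P Q m).flatMap er1 = Bw (Rl P Q) B ++ [] := by
    have e1 : bw P Q m = Bw (Rl P Q) (fun r => if r = 0 then 0 :: (zs (List.range m) ++ [0]) else
        [3 * (r - 1) + 1]) := rfl
    rw [e1, Bw_er, List.append_nil]
    apply Bw_congr
    intro r _
    show (if r = 0 then 0 :: (zs (List.range m) ++ [0]) else [3 * (r - 1) + 1]).flatMap er1 =
      (if r = 0 then [0, 0] else [])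
    by_cases h0 : r = 0
    · rw [if_pos h0, if_pos h0, List.flatMap_cons, List.flatMap_append, zs_er,
        List.flatMap_singleton, er1_not 0 (by omega)]
      rfl
    · rw [if_neg h0, if_neg h0, List.flatMap_singleton, er1_one _ (by omega)]
  have h2 : (Wg P Q M a b f).flatMap er1 = Bw (Rl P Q) C ++ List.replicate f 0 := by
    unfold Wg
    rw [List.flatMap_append, rep_er, Bw_er]
    congr 1
    apply Bw_congr
    intro r _
    show (if r = 0 then M else List.replicate (a r) 0 ++ ([3 * (r - 1) + 1] ++
        List.replicate (b r) 0)).flatMap er1 =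
      (if r = 0 then List.replicate (M.count 0) 0 else
        List.replicate (a r) 0 ++ List.replicate (b r) 0)
    by_cases h0 : r = 0
    · rw [if_pos h0, if_pos h0, M_er M hM]
    · rw [if_neg h0, if_neg h0, List.flatMap_append, List.flatMap_append, rep_er, rep_er,
        List.flatMap_singleton, er1_one _ (by omega)]
      rfl
  have h3 : RR β (Bw (Rl P Q) B ++ []) (Bw (Rl P Q) C ++ List.replicate f 0) := by
    rw [← h1, ← h2]
    exact hR.sub er1
  -- the main block
  obtain ⟨u0, v0, huv⟩ : ∃ u0 v0, M = u0 ++ (List.replicate (M.count 0) 0 ++ v0) := by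
    by_cases hm : 0 ∈ M
    · obtain ⟨s, t, hst⟩ := List.append_of_mem hm
      refine ⟨s, t, ?_⟩
      have h4 : M.count 0 = 1 := by
        have := List.count_pos_iff.mpr hm
        omega
      rw [h4]
      exact hst
    · refine ⟨M, [], ?_⟩
      rw [List.count_eq_zero.mpr hm]
      simp
  let U : ℕ → List ℕ := fun r => if r = 0 then u0 else if a r = 1 then [] else [3 * (r - 1) + 1]
  let V : ℕ → List ℕ := fun r => if r = 0 then v0 else if a r = 1 then [3 * (r - 1) + 1] else []
  have hB : ∀ r ∈ Rl P Q, SFr (B r) := by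
    intro r _
    show SFr (if r = 0 then [0, 0] else [])
    by_cases h0 : r = 0
    · rw [if_pos h0]
      exact sfr_rep 2
    · rw [if_neg h0]
      exact sfr_nil
  have hC : ∀ r ∈ Rl P Q, SFr (C r) := by
    intro r _
    show SFr (if r = 0 then List.replicate (M.count 0) 0 else
      List.replicate (a r) 0 ++ List.replicate (b r) 0)
    by_cases h0 : r = 0
    · rw [if_pos h0]
      exact sfr_rep _
    · rw [if_neg h0]
      exact sfr_app _ _ (sfr_rep _) (sfr_rep _)
  have h5 := hibw β (Rl P Q) B C U V [] (List.replicate f 0) [] (Rl_nodup P Q m hPQ) hB hC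
    sfr_nil (sfr_rep f) h3
  have h6 : Bw (Rl P Q) (fun r => U r ++ (C r ++ V r)) ++ ([] ++ List.replicate f 0) =
      Wg P Q M a b f := by
    unfold Wg
    rw [List.nil_append]
    congr 1
    apply Bw_congr
    intro r hr
    by_cases h0 : r = 0
    · subst h0
      exact huv.symm
    · have hU : U r = if a r = 1 then [] else [3 * (r - 1) + 1] := if_neg h0
      have hV : V r = if a r = 1 then [3 * (r - 1) + 1] else [] := if_neg h0
      have hC' : C r = List.replicate (a r) 0 ++ List.replicate (b r) 0 := if_neg h0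
      have hW : (if r = 0 then M else List.replicate (a r) 0 ++ ([3 * (r - 1) + 1] ++
        List.replicate (b r) 0)) = List.replicate (a r) 0 ++ ([3 * (r - 1) + 1] ++
        List.replicate (b r) 0) := if_neg h0
      show U r ++ (C r ++ V r) = (if r = 0 then M else List.replicate (a r) 0 ++
        ([3 * (r - 1) + 1] ++ List.replicate (b r) 0))
      rw [hU, hV, hC', hW]
      obtain ⟨e, he, rfl⟩ := Rl_mem P Q m hPQ r hr h0
      have hs := hab e he
      by_cases h1' : a (e + 1) = 1
      · have hb0 : b (e + 1) = 0 := by omega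
        rw [if_pos h1', if_pos h1', h1', hb0]
        simp
      · have ha0 : a (e + 1) = 0 := by omega
        rw [if_neg h1', if_neg h1', ha0]
        simp
  rw [h6] at h5
  refine (habs β).2 0 _ _ h5.symm ?_
  -- two adjacent letters
  have h7 : Bw (Rl P Q) (fun r => U r ++ (B r ++ V r)) ++ ([] ++ []) =
      (Bw (P.map (fun e => e + 1)) (fun r => U r ++ (B r ++ V r)) ++ u0) ++
        0 :: 0 :: ((v0 ++ [2]) ++ Bw (Q.map (fun e => e + 1)) (fun r => U r ++ (B r ++ V r))) := by
    have hX : U 0 ++ (B 0 ++ V 0) = u0 ++ ([0, 0] ++ v0) := rfl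
    unfold Rl
    rw [Bw_append, Bw_cons, hX]
    simp
  rw [h7]
  exact (habs β).1 hq _ _ 0

end Pool.Agent.MVK.H8
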